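import Pool.Agent.Helper76.PK.Final

/-!
# MP_ea8a26_gt: the first log-concavity inequality for all positive knots

A knot diagram in the plane with at least one crossing is a planar shadow `G` with a status for every crossing; `allPos G` is the diagram on `G` all of whose
crossings are positive, so every positive knot has a diagram `allPos G` with `G` planar (a diagram without crossings is the unknot, and a kink can be added).
For a family `nab` of polynomials of the diagrams on `G` with the three properties `IsConway` (skein relation, `1` on descending knot diagrams, `0` if a
sublink lies above the rest), for instance the Conway polynomial, with coefficients `c_j`: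

`c_0 = 1`, `0 ≤ c_2`, `c_4 ≤ c_2 (c_2 - 1)`, in particular `c_0 c_4 ≤ c_2 ^ 2`, the case `k = 1` of Q1 for all positive knots.

Proof. (1) `c_j` is the number of the ascending one-component states with `j` crossings (`coeff_eq`). (2) In a planar shadow two closed walks without common
edges cross algebraically zero times (`loop_sum`). (3) For every ascending pair a fixed integer combination of 24 such relations, added to the inequality
`∑ al2 ≤ 2 nA - 2`, leaves a sum of local terms that are non-negative for each of the 1680 orders of eight passages (`Check`); and the weights `al2` give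
every ascending state with four crossings the total weight `2` (`Eight`).
-/

set_option autoImplicit false

namespace Pool.Agent.Results.MP_ea8a26_gt.BottomInequality

open Polynomial Pool.Agent.Helper76.PK

theorem result (N : ℕ) (G : Shadow N) (hG : G.Planar) (nab : Diag G → ℤ[X]) (h : IsConway nab) :
    (nab (allPos G)).coeff 0 = 1 ∧ 0 ≤ (nab (allPos G)).coeff 2 ∧
      (nab (allPos G)).coeff 4 ≤ (nab (allPos G)).coeff 2 * ((nab (allPos G)).coeff 2 - 1) ∧
      (nab (allPos G)).coeff 0 * (nab (allPos G)).coeff 4 ≤ (nab (allPos G)).coeff 2 ^ 2 ∧
      ∀ nab' : Diag G → ℤ[X], IsConway nab' → nab' (allPos G) = nab (allPos G) := by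
  have hN : N ≠ 0 := by
    rintro rfl
    have h1 : IsEmpty (Quot fun d d' : Fin 0 × Bool => d' = G.face d) :=
      ⟨fun q => by
        induction q using Quot.ind with
        | mk d => exact d.1.elim0⟩
    have h2 := hG
    unfold Shadow.Planar at h2
    rw [Nat.card_of_isEmpty] at h2
    omega
  have b : Fin N := ⟨0, Nat.pos_of_ne_zero hN⟩
  obtain ⟨h0, h4⟩ := final G hG nab h
  have h2 : 0 ≤ (nab (allPos G)).coeff 2 := by
    rw [coeff_eq h b]
    exact Int.natCast_nonneg _
  refine ⟨h0, h2, h4, ?_, fun nab' h' => ?_⟩
  · rw [h0]
    nlinarith
  · ext m
    rw [coeff_eq h b, coeff_eq h' b]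

end Pool.Agent.Results.MP_ea8a26_gt.BottomInequality
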